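import Mathlib
import Pool.Agent.ARC.StmtsP
import Pool.Agent.Helper6_THS.HFS

set_option autoImplicit false

/-! Row PFA of the squad ARC: product formula with gains at the infinite places
(adapted from `Helper9_ARC/PGA.lean`, `Helper94_SZG/PFG.lean`). -/

open scoped BigOperators

namespace Pool.Agent.ARC.H18

open NumberField Pool.Agent.ARC
open Pool.Agent.THS (nv qv HfsStatement)

theorem pfa (hHfs : HfsStatement) : PfaStmt := by
  intro K _ _ ι _ Y D w₀ m r n C p hY hD hw hC hn hp hinf hfin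
  classical
  have fin_of : ∀ x : K, x ≠ 0 → {v : FinitePlace K | v.val x ≠ 1}.Finite := by
    intro x hx
    have h := hHfs K Unit (fun _ => x) (fun h => hx (congrFun h ()))
    refine h.subset ?_
    intro v hv
    simpa [nv] using hv
  set E : Finset (FinitePlace K) := (hHfs K ι Y hY).toFinset ∪ (fin_of D hD).toFinset ∪
    (fin_of 2 two_ne_zero).toFinset ∪ (fin_of w₀ hw).toFinset with hE
  have hP : ∀ f : FinitePlace K → ℝ, (∀ v, f v ≠ 1 → v ∈ E) → ∏ᶠ v, f v = ∏ v ∈ E, f v := by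
    intro f hf
    exact finprod_eq_prod_of_mulSupport_subset f (fun v hv => hf v hv)
  have hfinD : ∏ᶠ v : FinitePlace K, v D = ∏ v ∈ E, v.val D := by
    refine hP (fun v => v.val D) ?_
    intro v hv
    simp only [hE, Finset.mem_union, Set.Finite.mem_toFinset, Set.mem_ofPred_eq]
    exact Or.inl (Or.inl (Or.inr hv))
  have hfinw : ∏ᶠ v : FinitePlace K, v w₀ = ∏ v ∈ E, v.val w₀ := by
    refine hP (fun v => v.val w₀) ?_
    intro v hv
    simp only [hE, Finset.mem_union, Set.Finite.mem_toFinset, Set.mem_ofPred_eq]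
    exact Or.inr hv
  have hfin2 : ∏ᶠ v : FinitePlace K, v 2 = ∏ v ∈ E, v.val 2 := by
    refine hP (fun v => v.val 2) ?_
    intro v hv
    simp only [hE, Finset.mem_union, Set.Finite.mem_toFinset, Set.mem_ofPred_eq]
    exact Or.inl (Or.inr hv)
  have hfinY : ∏ᶠ v : FinitePlace K, (⨆ i, v (Y i)) = ∏ v ∈ E, nv v.val Y := by
    refine hP (fun v => nv v.val Y) ?_
    intro v hv
    simp only [hE, Finset.mem_union, Set.Finite.mem_toFinset, Set.mem_ofPred_eq]
    exact Or.inl (Or.inl (Or.inl hv))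
  -- the product formula
  have hA : (∏ w : InfinitePlace K, w D ^ w.mult) * ∏ v ∈ E, v.val D = 1 := by
    rw [← hfinD]; exact prod_abs_eq_one hD
  have hW : (∏ w : InfinitePlace K, w w₀ ^ w.mult) * ∏ v ∈ E, v.val w₀ = 1 := by
    rw [← hfinw]; exact prod_abs_eq_one hw
  have hB : (∏ w : InfinitePlace K, w 2 ^ w.mult) * ∏ v ∈ E, v.val 2 = 1 := by
    rw [← hfin2]; exact prod_abs_eq_one two_ne_zero
  have hB2 : ∏ w : InfinitePlace K, w (2 : K) ^ w.mult = 2 ^ Module.finrank ℚ K := by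
    have h2 : ∀ w : InfinitePlace K, w (2 : K) = 2 := by
      intro w
      have : w (2 : K) = ‖w.embedding 2‖ := (w.norm_embedding_eq 2).symm
      rw [this, map_ofNat]
      exact Complex.norm_ofNat 2
    rw [← InfinitePlace.sum_mult_eq, ← Finset.prod_pow_eq_pow_sum]
    exact Finset.prod_congr rfl (fun w _ => by rw [h2])
  have hH : Height.mulHeight Y = (∏ w : InfinitePlace K, nv w.val Y ^ w.mult) *
      ∏ v ∈ E, nv v.val Y := by
    rw [NumberField.mulHeight_eq hY, hfinY]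
    rfl
  have hnv : ∀ w : AbsoluteValue K ℝ, 0 ≤ nv w Y := fun w => Real.iSup_nonneg (fun i => w.nonneg _)
  -- finite places
  have h1 : ((∏ v ∈ E, v.val 2) ^ m * (∏ v ∈ E, v.val D)) ^ n
      ≤ (∏ v ∈ E, v.val w₀) * ((∏ v ∈ E, nv v.val Y) ^ r) ^ n := by
    rw [← Finset.prod_pow, ← Finset.prod_mul_distrib, ← Finset.prod_pow, ← Finset.prod_pow,
      ← Finset.prod_pow, ← Finset.prod_mul_distrib]
    refine Finset.prod_le_prod ?_ ?_
    · intro v hv
      have h2 := v.val.nonneg 2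
      have h3 := v.val.nonneg D
      positivity
    · intro v hv
      exact hfin v
  -- infinite places
  have h2 : ((∏ w : InfinitePlace K, p w ^ w.mult) * ∏ w : InfinitePlace K, w D ^ w.mult) ^ n ≤
      (∏ w : InfinitePlace K, w w₀ ^ w.mult) *
        (C ^ Module.finrank ℚ K * (∏ w : InfinitePlace K, nv w.val Y ^ w.mult) ^ r) ^ n := by
    have e1 : ((∏ w : InfinitePlace K, p w ^ w.mult) * ∏ w : InfinitePlace K, w D ^ w.mult) ^ n =
        ∏ w : InfinitePlace K, ((p w * w.val D) ^ n) ^ w.mult := by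
      rw [← Finset.prod_mul_distrib, ← Finset.prod_pow]
      refine Finset.prod_congr rfl (fun w _ => ?_)
      rw [← mul_pow, ← pow_mul, ← pow_mul, mul_comm w.mult n]; rfl
    have e2 : (∏ w : InfinitePlace K, w w₀ ^ w.mult) *
        (C ^ Module.finrank ℚ K * (∏ w : InfinitePlace K, nv w.val Y ^ w.mult) ^ r) ^ n =
        ∏ w : InfinitePlace K, (w.val w₀ * (C * nv w.val Y ^ r) ^ n) ^ w.mult := by
      rw [← InfinitePlace.sum_mult_eq, ← Finset.prod_pow_eq_pow_sum, ← Finset.prod_pow,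
        ← Finset.prod_mul_distrib, ← Finset.prod_pow, ← Finset.prod_mul_distrib]
      refine Finset.prod_congr rfl (fun w _ => ?_)
      rw [mul_pow (w.val w₀)]
      congr 1
      rw [← pow_mul, ← pow_mul, mul_pow, mul_pow, ← pow_mul, ← pow_mul, ← pow_mul]
      ring
    rw [e1, e2]
    refine Finset.prod_le_prod (fun w _ => ?_) (fun w _ => ?_)
    · have := w.val.nonneg D
      have h3 := hp w
      positivity
    · refine pow_le_pow_left₀ ?_ (hinf w) _
      have := w.val.nonneg D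
      have h3 := hp w
      positivity
  -- assemble
  rw [hH]
  rw [hB2] at hB
  have hF0 : 0 ≤ ∏ v ∈ E, v.val D := Finset.prod_nonneg (fun v _ => v.val.nonneg _)
  have hG0 : 0 ≤ ∏ v ∈ E, v.val 2 := Finset.prod_nonneg (fun v _ => v.val.nonneg _)
  have hWf : 0 ≤ ∏ v ∈ E, v.val w₀ := Finset.prod_nonneg (fun v _ => v.val.nonneg _)
  have hWi : 0 ≤ ∏ w : InfinitePlace K, w w₀ ^ w.mult :=
    Finset.prod_nonneg (fun w _ => pow_nonneg (w.val.nonneg _) _)
  have hA0 : 0 ≤ ∏ w : InfinitePlace K, w D ^ w.mult :=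
    Finset.prod_nonneg (fun w _ => pow_nonneg (w.val.nonneg _) _)
  have hNi : 0 ≤ ∏ w : InfinitePlace K, nv w.val Y ^ w.mult :=
    Finset.prod_nonneg (fun w _ => pow_nonneg (hnv _) _)
  have hNf : 0 ≤ ∏ v ∈ E, nv v.val Y := Finset.prod_nonneg (fun v _ => hnv _)
  have hQ : 0 ≤ ∏ w : InfinitePlace K, p w ^ w.mult :=
    Finset.prod_nonneg (fun w _ => pow_nonneg (hp w) _)
  generalize ∏ w : InfinitePlace K, p w ^ w.mult = p0 at *
  generalize ∏ w : InfinitePlace K, w D ^ w.mult = A at *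
  generalize ∏ w : InfinitePlace K, w w₀ ^ w.mult = Wi at *
  generalize ∏ v ∈ E, v.val D = F at *
  generalize ∏ v ∈ E, v.val w₀ = Wf at *
  generalize ∏ v ∈ E, v.val 2 = G at *
  generalize ∏ w : InfinitePlace K, nv w.val Y ^ w.mult = Ni at *
  generalize ∏ v ∈ E, nv v.val Y = Nf at *
  generalize Module.finrank ℚ K = N at *
  have h3 : (p0 * A) ^ n * (G ^ m * F) ^ n ≤
      (Wi * (C ^ N * Ni ^ r) ^ n) * (Wf * (Nf ^ r) ^ n) :=
    mul_le_mul h2 h1 (by positivity) (by positivity)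
  have h4 : (p0 * A) ^ n * (G ^ m * F) ^ n = (p0 * G ^ m) ^ n := by
    rw [← mul_pow]
    congr 1
    calc (p0 * A) * (G ^ m * F) = p0 * G ^ m * (A * F) := by ring
      _ = p0 * G ^ m := by rw [hA, mul_one]
  have h4' : (Wi * (C ^ N * Ni ^ r) ^ n) * (Wf * (Nf ^ r) ^ n) =
      (C ^ N * (Ni * Nf) ^ r) ^ n := by
    calc (Wi * (C ^ N * Ni ^ r) ^ n) * (Wf * (Nf ^ r) ^ n) =
        (Wi * Wf) * ((C ^ N * Ni ^ r) ^ n * (Nf ^ r) ^ n) := by ring
      _ = (C ^ N * (Ni * Nf) ^ r) ^ n := by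
        rw [hW, one_mul, ← mul_pow, mul_pow Ni]
        congr 1
        ring
  rw [h4, h4'] at h3
  have h5 : p0 * G ^ m ≤ C ^ N * (Ni * Nf) ^ r :=
    le_of_pow_le_pow_left₀ hn.ne' (by positivity) h3
  have h6 : ((2 : ℝ) ^ N) ^ m * (p0 * G ^ m) ≤ ((2 : ℝ) ^ N) ^ m * (C ^ N * (Ni * Nf) ^ r) :=
    mul_le_mul_of_nonneg_left h5 (by positivity)
  have h7 : ((2 : ℝ) ^ N) ^ m * (p0 * G ^ m) = p0 := by
    calc ((2 : ℝ) ^ N) ^ m * (p0 * G ^ m) = p0 * ((2 : ℝ) ^ N * G) ^ m := by rw [mul_pow]; ring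
      _ = p0 := by rw [hB]; ring
  rw [h7] at h6
  refine h6.trans (le_of_eq ?_)
  rw [mul_pow C, ← pow_mul, ← pow_mul, mul_comm N m]
  ring

end Pool.Agent.ARC.H18
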